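import Pool.Agent.L7h43.MW.Stm
import Pool.Agent.W346.PV.Newt
import Pool.Agent.H505R2.DivB

/-! Project MW, part S_J (Hua's argument). -/

set_option autoImplicit false

namespace Pool.Agent.L7h14.MW

open Finset Pool.Agent.L7h43.MW

theorem mem_I {X i n : ℕ} : n ∈ I X i ↔ 5 ^ i * X < n ∧ n ≤ 4 * 5 ^ i * X := by
  simp [I]

theorem mem_Bx {X r : ℕ} {x : Fin r → ℕ} : x ∈ Bx X r ↔ ∀ i : Fin r, x i ∈ I X i := by
  simp [Bx]

/-- the intervals are separated -/
theorem I_lt {X i j a b : ℕ} (hij : i < j) (ha : a ∈ I X i) (hb : b ∈ I X j) : a < b := by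
  rw [mem_I] at ha hb
  have h1 : 5 ^ (i + 1) ≤ 5 ^ j := Nat.pow_le_pow_right (by norm_num) hij
  have h2 : 5 ^ (i + 1) * X ≤ 5 ^ j * X := Nat.mul_le_mul_right _ h1
  have h3 : 4 * 5 ^ i * X ≤ 5 ^ (i + 1) * X := by
    apply Nat.mul_le_mul_right
    rw [pow_succ]; omega
  omega

/-- equal power sums of degrees `1..k` for `k + 1` variables -/
theorem newton (k : ℕ) (x y : Fin (k + 1) → ℕ)
    (h : ∀ j, 1 ≤ j → j ≤ k → ∑ i, (x i) ^ j = ∑ i, (y i) ^ j) :
    ∃ c : ℤ, ∀ z : ℤ, ∏ i, (z - (x i : ℤ)) - ∏ i, (z - (y i : ℤ)) = c := by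
  have h1 := Pool.Agent.W346.PV.Newt.main (k + 1) k x y (fun j => h (j.val + 1) (by omega) (by omega))
  set p := (∏ i, ((Polynomial.X : Polynomial ℤ) - Polynomial.C (x i : ℤ))) -
    ∏ i, ((Polynomial.X : Polynomial ℤ) - Polynomial.C (y i : ℤ)) with hp
  have h2 : p.degree ≤ 0 := by
    have h3 : p.degree < ((1 : ℕ) : WithBot ℕ) := by
      simpa using h1
    by_cases hp0 : p = 0
    · rw [hp0]; simp
    · rw [Polynomial.degree_eq_natDegree hp0] at h3 ⊢
      have h4 : p.natDegree < 1 := by exact_mod_cast h3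
      have h5 : p.natDegree = 0 := by omega
      rw [h5]; simp
  refine ⟨p.coeff 0, fun z => ?_⟩
  have h3 := Polynomial.eq_C_of_degree_le_zero h2
  have h4 : p.eval z = p.coeff 0 := by
    conv_lhs => rw [h3]
    simp
  rw [← h4, hp]
  simp [Polynomial.eval_prod]

/-- a solution is diagonal or has different last coordinates, and then the divisor identity holds -/
theorem sol (X k : ℕ) (x y : Fin (k + 1) → ℕ) (hx : x ∈ Bx X (k + 1))
    (hy : y ∈ Bx X (k + 1)) (h : ∀ j, 1 ≤ j → j ≤ k → ∑ i, (x i) ^ j = ∑ i, (y i) ^ j) :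
    x = y ∨ ∏ i : Fin k, (y (Fin.last k) - x i.castSucc) =
      ∏ i : Fin k, (x (Fin.last k) - y i.castSucc) := by
  obtain ⟨c, hc⟩ := newton k x y h
  rw [mem_Bx] at hx hy
  by_cases hl : x (Fin.last k) = y (Fin.last k)
  · left
    have hc0 : c = 0 := by
      rw [← hc (x (Fin.last k))]
      rw [Finset.prod_eq_zero (Finset.mem_univ (Fin.last k)) (by simp),
        Finset.prod_eq_zero (Finset.mem_univ (Fin.last k)) (by rw [hl]; simp)]
      simp
    funext i
    have h1 := hc (x i)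
    rw [hc0, Finset.prod_eq_zero (Finset.mem_univ i) (by simp)] at h1
    have h2 : ∏ j, ((x i : ℤ) - (y j : ℤ)) = 0 := by linarith
    rw [Finset.prod_eq_zero_iff] at h2
    obtain ⟨j, -, hj⟩ := h2
    have h3 : x i = y j := by
      have : (x i : ℤ) = y j := by linarith
      exact_mod_cast this
    rcases lt_trichotomy i j with h4 | h4 | h4
    · have := I_lt (Fin.lt_def.1 h4) (hx i) (hy j)
      omega
    · rw [h3, h4]
    · have := I_lt (Fin.lt_def.1 h4) (hy j) (hx i)
      omega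
  · right
    have h1 := hc (y (Fin.last k))
    have h2 := hc (x (Fin.last k))
    rw [Fin.prod_univ_castSucc, Fin.prod_univ_castSucc] at h1 h2
    simp only [sub_self, mul_zero, sub_zero, zero_sub] at h1 h2
    have hne : ((y (Fin.last k) : ℤ) - x (Fin.last k)) ≠ 0 := by
      intro h3
      apply hl
      have : (x (Fin.last k) : ℤ) = y (Fin.last k) := by linarith
      exact_mod_cast this
    have h3 : (∏ i : Fin k, ((y (Fin.last k) : ℤ) - x i.castSucc)) =
        ∏ i : Fin k, ((x (Fin.last k) : ℤ) - y i.castSucc) := by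
      apply mul_right_cancel₀ hne
      rw [h1, ← h2]
      ring
    have e1 : ((∏ i : Fin k, (y (Fin.last k) - x i.castSucc) : ℕ) : ℤ) =
        ∏ i : Fin k, ((y (Fin.last k) : ℤ) - x i.castSucc) := by
      rw [Nat.cast_prod]
      refine Finset.prod_congr rfl fun i _ => ?_
      have := I_lt (i := (i.castSucc : Fin (k + 1)).val) (j := (Fin.last k).val) (by simp) (hx _)
        (hy (Fin.last k))
      rw [Nat.cast_sub this.le]
    have e2 : ((∏ i : Fin k, (x (Fin.last k) - y i.castSucc) : ℕ) : ℤ) =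
        ∏ i : Fin k, ((x (Fin.last k) : ℤ) - y i.castSucc) := by
      rw [Nat.cast_prod]
      refine Finset.prod_congr rfl fun i _ => ?_
      have := I_lt (i := (i.castSucc : Fin (k + 1)).val) (j := (Fin.last k).val) (by simp) (hy _)
        (hx (Fin.last k))
      rw [Nat.cast_sub this.le]
    have h4 : ((∏ i : Fin k, (y (Fin.last k) - x i.castSucc) : ℕ) : ℤ) =
        ((∏ i : Fin k, (x (Fin.last k) - y i.castSucc) : ℕ) : ℤ) := by
      rw [e1, e2, h3]
    exact_mod_cast h4

/-- the target of the encoding -/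
def NN {k : ℕ} (q : ℕ × (Fin k → ℕ)) : ℕ := ∏ i : Fin k, (q.1 - q.2 i)

theorem card_I_le (X i k : ℕ) (hi : i ≤ k) : (I X i).card ≤ 4 * 5 ^ k * X := by
  unfold I
  rw [Nat.card_Ioc]
  calc 4 * 5 ^ i * X - 5 ^ i * X ≤ 4 * 5 ^ i * X := Nat.sub_le _ _
    _ ≤ 4 * 5 ^ k * X := by
        apply Nat.mul_le_mul_right
        apply Nat.mul_le_mul_left
        exact Nat.pow_le_pow_right (by norm_num) hi

theorem card_Bx_le (X r k : ℕ) (hr : r ≤ k + 1) : (Bx X r).card ≤ (4 * 5 ^ k * X) ^ r := by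
  unfold Bx
  rw [Fintype.card_piFinset]
  calc ∏ i : Fin r, (I X i).card ≤ ∏ _i : Fin r, (4 * 5 ^ k * X) :=
        Finset.prod_le_prod' fun i _ => card_I_le X i k (by omega)
    _ = _ := by simp

theorem NN_le (X k : ℕ) (q : ℕ × (Fin k → ℕ)) (hq : q.1 ∈ I X k) : NN q ≤ (4 * 5 ^ k * X) ^ k := by
  unfold NN
  rw [mem_I] at hq
  calc ∏ i : Fin k, (q.1 - q.2 i) ≤ ∏ _i : Fin k, (4 * 5 ^ k * X) :=
        Finset.prod_le_prod' fun i _ => (Nat.sub_le _ _).trans hq.2
    _ = _ := by simp

open Classical in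
theorem s_J : S_J := by
  intro k hk ε hε
  have hk0 : (0 : ℝ) < k := by exact_mod_cast (by omega : 0 < k)
  set δ : ℝ := ε / (k : ℝ) ^ 2 with hδ
  have hδ0 : 0 < δ := by positivity
  obtain ⟨C, hC1, hC⟩ := Pool.Agent.H505R2.div_bound hδ0
  set A : ℝ := 4 * 5 ^ k with hA
  have hA1 : 1 ≤ A := by
    rw [hA]
    have : (1 : ℝ) ≤ 5 ^ k := one_le_pow₀ (by norm_num)
    linarith
  refine ⟨A ^ (k + 1) + A ^ (k + 1) * (C ^ k * A ^ ε), by positivity, ?_⟩
  intro X hX
  have hX1 : (1 : ℝ) ≤ X := by exact_mod_cast hX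
  have hX0 : (0 : ℝ) < X := by linarith
  set S := (Bx X (k + 1) ×ˢ Bx X (k + 1)).filter (fun p : (Fin (k + 1) → ℕ) × (Fin (k + 1) → ℕ) =>
    ∀ j, 1 ≤ j → j ≤ k → ∑ i, (p.1 i) ^ j = ∑ i, (p.2 i) ^ j) with hS
  set T : Finset (Σ _ : ℕ × (Fin k → ℕ), Fin k → ℕ) := ((I X k) ×ˢ (Bx X k)).sigma
    (fun q => Fintype.piFinset fun _ : Fin k => (NN q).divisors) with hT
  set D := (Bx X (k + 1)).image (fun x => (x, x)) with hD
  have hmem : ∀ p : (Fin (k + 1) → ℕ) × (Fin (k + 1) → ℕ), p ∈ S ↔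
      (p ∈ Bx X (k + 1) ×ˢ Bx X (k + 1) ∧ ∀ j, 1 ≤ j → j ≤ k → ∑ i, (p.1 i) ^ j = ∑ i, (p.2 i) ^ j) := by
    intro p
    simp only [hS, Finset.mem_filter]
  -- the non-diagonal part
  have hS1 : (S \ D).card ≤ T.card := by
    apply Finset.card_le_card_of_injOn
      (fun p => (⟨(p.1 (Fin.last k), fun i => p.2 i.castSucc),
        fun i => p.2 (Fin.last k) - p.1 i.castSucc⟩ : Σ _ : ℕ × (Fin k → ℕ), Fin k → ℕ))
    · intro p hp
      have hp' : p ∈ S \ D := hp
      rw [Finset.mem_sdiff, hmem, Finset.mem_product, hD, Finset.mem_image] at hp'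
      obtain ⟨⟨⟨h1, h2⟩, h3⟩, h4⟩ := hp'
      have h1' := mem_Bx.1 h1
      have h2' := mem_Bx.1 h2
      show _ ∈ T
      rw [hT, Finset.mem_sigma, Finset.mem_product]
      refine ⟨⟨?_, ?_⟩, ?_⟩
      · exact h1' (Fin.last k)
      · rw [mem_Bx]
        intro i
        exact h2' i.castSucc
      · rw [Fintype.mem_piFinset]
        intro i
        rcases sol X k p.1 p.2 h1 h2 h3 with h5 | h5
        · exact absurd ⟨p.1, h1, by rw [Prod.ext_iff]; exact ⟨rfl, h5⟩⟩ h4
        · rw [Nat.mem_divisors]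
          constructor
          · show _ ∣ NN _
            unfold NN
            simp only
            rw [← h5]
            exact Finset.dvd_prod_of_mem (fun i : Fin k => p.2 (Fin.last k) - p.1 i.castSucc)
              (Finset.mem_univ i)
          · show NN _ ≠ 0
            unfold NN
            simp only
            rw [Finset.prod_ne_zero_iff]
            intro j _
            have := I_lt (i := (j.castSucc : Fin (k + 1)).val) (j := (Fin.last k).val) (by simp)
              (h2' _) (h1' (Fin.last k))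
            omega
    · intro p hp p' hp' hpp
      have hp1 : p ∈ S \ D := hp
      have hp1' : p' ∈ S \ D := hp'
      rw [Finset.mem_sdiff, hmem, Finset.mem_product] at hp1 hp1'
      obtain ⟨⟨⟨h1, h2⟩, h3⟩, -⟩ := hp1
      obtain ⟨⟨⟨g1, g2⟩, g3⟩, -⟩ := hp1'
      have h1' := mem_Bx.1 h1
      have h2' := mem_Bx.1 h2
      have g1' := mem_Bx.1 g1
      have g2' := mem_Bx.1 g2
      simp only [Sigma.mk.injEq, Prod.mk.injEq, heq_eq_eq] at hpp
      obtain ⟨⟨a1, a2⟩, a3⟩ := hpp
      have a2' : ∀ i : Fin k, p.2 i.castSucc = p'.2 i.castSucc := fun i => congrFun a2 i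
      have a3' : ∀ i : Fin k, p.2 (Fin.last k) - p.1 i.castSucc =
        p'.2 (Fin.last k) - p'.1 i.castSucc := fun i => congrFun a3 i
      have l1 : ∀ i : Fin k, (p.1 i.castSucc : ℤ) = p.2 (Fin.last k) -
          ((p.2 (Fin.last k) - p.1 i.castSucc : ℕ) : ℤ) := by
        intro i
        have := I_lt (i := (i.castSucc : Fin (k + 1)).val) (j := (Fin.last k).val) (by simp)
              (h1' _) (h2' (Fin.last k))
        omega
      have l2 : ∀ i : Fin k, (p'.1 i.castSucc : ℤ) = p'.2 (Fin.last k) -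
          ((p'.2 (Fin.last k) - p'.1 i.castSucc : ℕ) : ℤ) := by
        intro i
        have := I_lt (i := (i.castSucc : Fin (k + 1)).val) (j := (Fin.last k).val) (by simp)
              (g1' _) (g2' (Fin.last k))
        omega
      have s1 := h3 1 le_rfl (by omega)
      have s2 := g3 1 le_rfl (by omega)
      simp only [pow_one] at s1 s2
      rw [Fin.sum_univ_castSucc, Fin.sum_univ_castSucc] at s1 s2
      have s1' : (∑ i : Fin k, (p.1 i.castSucc : ℤ)) + p.1 (Fin.last k) =
        (∑ i : Fin k, (p.2 i.castSucc : ℤ)) + p.2 (Fin.last k) := by exact_mod_cast s1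
      have s2' : (∑ i : Fin k, (p'.1 i.castSucc : ℤ)) + p'.1 (Fin.last k) =
        (∑ i : Fin k, (p'.2 i.castSucc : ℤ)) + p'.2 (Fin.last k) := by exact_mod_cast s2
      have t1 : (∑ i : Fin k, (p.1 i.castSucc : ℤ)) = k * p.2 (Fin.last k) -
          ∑ i : Fin k, ((p.2 (Fin.last k) - p.1 i.castSucc : ℕ) : ℤ) := by
        rw [Finset.sum_congr rfl (fun i _ => l1 i), Finset.sum_sub_distrib]
        simp
      have t2 : (∑ i : Fin k, (p'.1 i.castSucc : ℤ)) = k * p'.2 (Fin.last k) -
          ∑ i : Fin k, ((p.2 (Fin.last k) - p.1 i.castSucc : ℕ) : ℤ) := by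
        rw [Finset.sum_congr rfl (fun i _ => l2 i), Finset.sum_sub_distrib]
        simp only [Finset.sum_const, Finset.card_univ, Fintype.card_fin, nsmul_eq_mul, a3']
      have u1 : (∑ i : Fin k, (p.2 i.castSucc : ℤ)) = ∑ i : Fin k, (p'.2 i.castSucc : ℤ) :=
        Finset.sum_congr rfl fun i _ => by rw [a2' i]
      have hkk : ((k : ℤ) - 1) * ((p.2 (Fin.last k) : ℤ) - p'.2 (Fin.last k)) = 0 := by
        have a1' : (p.1 (Fin.last k) : ℤ) = p'.1 (Fin.last k) := by exact_mod_cast a1
        linear_combination s1' - s2' - t1 + t2 + u1 - a1'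
      have hk1 : ((k : ℤ) - 1) ≠ 0 := by
        have : (2 : ℤ) ≤ k := by exact_mod_cast hk
        omega
      have hy : p.2 (Fin.last k) = p'.2 (Fin.last k) := by
        rcases mul_eq_zero.1 hkk with h | h
        · exact absurd h hk1
        · have : (p.2 (Fin.last k) : ℤ) = p'.2 (Fin.last k) := by linarith
          exact_mod_cast this
      apply Prod.ext
      · funext i
        refine Fin.lastCases ?_ ?_ i
        · exact a1
        · intro j
          have e1 := l1 j
          have e2 := l2 j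
          have e3 := a3' j
          rw [hy] at e1 e3
          omega
      · funext i
        refine Fin.lastCases ?_ ?_ i
        · exact hy
        · intro j
          exact a2' j
  have hS2 : (S.card : ℝ) ≤ D.card + T.card := by
    have h1 : S.card ≤ D.card + (S \ D).card := by
      have := Finset.card_le_card (s := S) (t := D ∪ (S \ D)) (by
        intro p hp
        by_cases h : p ∈ D
        · exact Finset.mem_union_left _ h
        · exact Finset.mem_union_right _ (Finset.mem_sdiff.2 ⟨hp, h⟩))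
      exact this.trans (Finset.card_union_le _ _)
    have h2 : S.card ≤ D.card + T.card := by omega
    exact_mod_cast h2
  have hDc : (D.card : ℝ) ≤ A ^ (k + 1) * (X : ℝ) ^ (k + 1) := by
    have h1 : D.card ≤ (4 * 5 ^ k * X) ^ (k + 1) :=
      Finset.card_image_le.trans (card_Bx_le X (k + 1) k le_rfl)
    have h2 : (D.card : ℝ) ≤ ((4 * 5 ^ k * X : ℕ) : ℝ) ^ (k + 1) := by exact_mod_cast h1
    refine h2.trans_eq ?_
    rw [hA]; push_cast; ring
  have hTc : (T.card : ℝ) ≤ A ^ (k + 1) * (X : ℝ) ^ (k + 1) * (C ^ k * (A * X) ^ ε) := by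
    rw [hT, Finset.card_sigma]
    push_cast
    have h1 : ∀ q ∈ (I X k) ×ˢ (Bx X k), (((Fintype.piFinset fun _ : Fin k => (NN q).divisors).card : ℕ) : ℝ)
        ≤ C ^ k * (A * X) ^ ε := by
      intro q hq
      rw [Finset.mem_product] at hq
      rw [Fintype.card_piFinset]
      simp only [Finset.prod_const, Finset.card_univ, Fintype.card_fin]
      push_cast
      have h2 : ((NN q).divisors.card : ℝ) ≤ C * ((A * X) ^ k) ^ δ := by
        rcases Nat.eq_zero_or_pos (NN q) with h | h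
        · rw [h]
          simp only [Nat.divisors_zero, Finset.card_empty, Nat.cast_zero]
          positivity
        · refine (hC _ h.ne').trans ?_
          apply mul_le_mul_of_nonneg_left _ (by linarith)
          apply Real.rpow_le_rpow (by positivity) _ hδ0.le
          have h3 : ((NN q : ℕ) : ℝ) ≤ (((4 * 5 ^ k * X) ^ k : ℕ) : ℝ) := by
            exact_mod_cast NN_le X k q hq.1
          refine h3.trans_eq ?_
          rw [hA]; push_cast; ring
      calc ((NN q).divisors.card : ℝ) ^ k ≤ (C * ((A * X) ^ k) ^ δ) ^ k :=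
            pow_le_pow_left₀ (by positivity) h2 k
        _ = C ^ k * (A * X) ^ ε := by
            rw [mul_pow]
            congr 1
            rw [← Real.rpow_natCast (A * X) k, ← Real.rpow_mul (by positivity),
              ← Real.rpow_natCast _ k, ← Real.rpow_mul (by positivity)]
            congr 1
            rw [hδ]
            field_simp
    refine (Finset.sum_le_card_nsmul _ _ _ h1).trans ?_
    rw [nsmul_eq_mul]
    apply mul_le_mul_of_nonneg_right _ (by positivity)
    rw [Finset.card_product]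
    have h2 : (I X k).card * (Bx X k).card ≤ (4 * 5 ^ k * X) * (4 * 5 ^ k * X) ^ k :=
      Nat.mul_le_mul (card_I_le X k k le_rfl) (card_Bx_le X k k (by omega))
    have h3 : (((I X k).card * (Bx X k).card : ℕ) : ℝ) ≤ (((4 * 5 ^ k * X) * (4 * 5 ^ k * X) ^ k : ℕ) : ℝ) := by
      exact_mod_cast h2
    refine h3.trans_eq ?_
    rw [hA]; push_cast; ring
  have hXX : (X : ℝ) ^ ((k : ℝ) + 1 + ε) = (X : ℝ) ^ (k + 1) * (X : ℝ) ^ ε := by
    rw [Real.rpow_add hX0, ← Real.rpow_natCast (X : ℝ) (k + 1)]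
    push_cast
    rfl
  rw [hXX]
  have hXe : 1 ≤ (X : ℝ) ^ ε := Real.one_le_rpow hX1 hε.le
  calc (S.card : ℝ) ≤ D.card + T.card := hS2
    _ ≤ A ^ (k + 1) * (X : ℝ) ^ (k + 1) + A ^ (k + 1) * (X : ℝ) ^ (k + 1) * (C ^ k * (A * X) ^ ε) :=
        add_le_add hDc hTc
    _ ≤ A ^ (k + 1) * (X : ℝ) ^ (k + 1) * (X : ℝ) ^ ε +
        A ^ (k + 1) * (X : ℝ) ^ (k + 1) * (C ^ k * (A * X) ^ ε) := by
        have : 0 ≤ A ^ (k + 1) * (X : ℝ) ^ (k + 1) := by positivity
        nlinarith
    _ = _ := by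
        rw [Real.mul_rpow (by positivity) (by positivity)]
        ring

end Pool.Agent.L7h14.MW
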