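import Pool.Agent.L7h14.MW.W

/-! Project MW, part S_KL (Kusmin-Landau near 0). -/

set_option autoImplicit false

namespace Pool.Agent.L7h14.MW

open Finset Polynomial Pool.Agent.L7h43.MW
open Pool.Agent.Helper153.Vdc (dd kusmin_landau)

theorem s_KL : S_KL := by
  intro d B hd
  obtain ⟨x₀, hx₀, hiter⟩ := iter_bd d B
  set c : ℝ := 5 ^ (d + 2) with hc
  have hc1 : 1 ≤ c := one_le_pow₀ (by norm_num)
  set A : ℝ := 2 * (((d + 1).factorial : ℝ) + 1) * c ^ (d + 1) with hA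
  have hA1 : 1 ≤ A := by
    have h1 : (1 : ℝ) ≤ c ^ (d + 1) := one_le_pow₀ hc1
    have h2 : (0 : ℝ) ≤ ((d + 1).factorial : ℝ) := by positivity
    rw [hA]
    nlinarith
  refine ⟨1 / A, 4, by positivity, by norm_num, max 1 ⌈x₀⌉₊, ?_⟩
  intro X hX θ hθ ξ hξ0 hξ i hi
  have hX1' : 1 ≤ X := (le_max_left _ _).trans hX
  have hXx₀ : x₀ ≤ X := (Nat.le_ceil x₀).trans (by exact_mod_cast (le_max_right _ _).trans hX)
  have hX1 : (1 : ℝ) ≤ X := by exact_mod_cast hX1'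
  have hX0 : (0 : ℝ) < X := by linarith
  rw [f_eq]
  set F : ℝ[X] := C ξ * (Q d θ).comp (Polynomial.X + C ((5 ^ i * X + 1 : ℕ) : ℝ)) with hF
  have hFd : ∀ j : ℕ, ∀ z : ℝ, (derivative^[j] F).eval z =
      ξ * (derivative^[j] (Q d θ)).eval (z + ((5 ^ i * X + 1 : ℕ) : ℝ)) := by
    intro j z
    rw [hF, iterate_derivative_C_mul, comp_iter, eval_mul, eval_C, eval_comp]
    simp
  have h5i : (1 : ℝ) ≤ 5 ^ i := one_le_pow₀ (by norm_num)
  have h5id : (5 : ℝ) ^ i ≤ 5 ^ (d + 1) := pow_le_pow_right₀ (by norm_num) hi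
  -- the range of the arguments
  have harg : ∀ z : ℝ, 0 ≤ z → z ≤ 3 * 5 ^ i * X →
      (X : ℝ) ≤ z + ((5 ^ i * X + 1 : ℕ) : ℝ) ∧ z + ((5 ^ i * X + 1 : ℕ) : ℝ) ≤ c * X := by
    intro z hz1 hz2
    push_cast
    constructor
    · nlinarith
    · have h3 : 4 * 5 ^ i * (X : ℝ) ≤ 4 * 5 ^ (d + 1) * X := by
        apply mul_le_mul_of_nonneg_right _ hX0.le
        linarith
      have h4 : c * (X : ℝ) = 5 * 5 ^ (d + 1) * X := by rw [hc]; ring
      have h5 : (1 : ℝ) ≤ 5 ^ (d + 1) * X := by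
        have : (1 : ℝ) ≤ 5 ^ (d + 1) := one_le_pow₀ (by norm_num)
        nlinarith
      rw [h4]
      nlinarith
  have hXd : 0 < (X : ℝ) ^ d := by positivity
  have h1 : ∀ n, n + 1 < 3 * 5 ^ i * X → ξ * (X : ℝ) ^ d / 2 ≤ F.eval ((n + 1 : ℕ) : ℝ) - F.eval (n : ℝ) ∧
      F.eval ((n + 1 : ℕ) : ℝ) - F.eval (n : ℝ) ≤ 1 / 2 := by
    intro n hn
    obtain ⟨z, hz1, hz2, hz3⟩ := dd_mvt 1 F n
    have hn' : (n : ℝ) + ((1 : ℕ) : ℝ) < 3 * 5 ^ i * X := by exact_mod_cast hn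
    obtain ⟨ha1, ha2⟩ := harg z ((Nat.cast_nonneg n).trans hz1) (hz2.trans hn'.le)
    set w := z + ((5 ^ i * X + 1 : ℕ) : ℝ) with hw
    have hb := hiter θ hθ 1 (by omega) w (hXx₀.trans ha1)
    rw [show d + 1 - 1 = d by omega] at hb
    have hw0 : 0 < w := by linarith
    have hf1 : (1 : ℝ) ≤ ((d + 1).descFactorial 1 : ℝ) := by
      rw [Nat.descFactorial_one]
      push_cast
      linarith [(Nat.cast_nonneg d : (0 : ℝ) ≤ d)]
    have hf2 : ((d + 1).descFactorial 1 : ℝ) ≤ ((d + 1).factorial : ℝ) := by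
      rw [Nat.descFactorial_one]
      exact_mod_cast Nat.self_le_factorial (d + 1)
    rw [abs_le] at hb
    obtain ⟨hb1, hb2⟩ := hb
    have hwm : (X : ℝ) ^ d ≤ w ^ d := pow_le_pow_left₀ hX0.le ha1 d
    have hwm0 : 0 < w ^ d := by positivity
    have hwm2 : w ^ d ≤ c ^ (d + 1) * (X : ℝ) ^ d := by
      calc w ^ d ≤ (c * X) ^ d := pow_le_pow_left₀ hw0.le ha2 d
        _ = c ^ d * (X : ℝ) ^ d := by rw [mul_pow]
        _ ≤ c ^ (d + 1) * (X : ℝ) ^ d := by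
            apply mul_le_mul_of_nonneg_right _ (by positivity)
            exact pow_le_pow_right₀ hc1 (by omega)
    have e1 : F.eval ((n + 1 : ℕ) : ℝ) - F.eval (n : ℝ) =
        ξ * (derivative^[1] (Q d θ)).eval w := by
      rw [hw, ← hFd 1 z, ← hz3]
      rfl
    rw [e1]
    constructor
    · have h1 : (X : ℝ) ^ d / 2 ≤ (derivative^[1] (Q d θ)).eval w := by nlinarith
      calc ξ * (X : ℝ) ^ d / 2 = ξ * ((X : ℝ) ^ d / 2) := by ring
        _ ≤ _ := mul_le_mul_of_nonneg_left h1 hξ0.le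
    · have h1 : (derivative^[1] (Q d θ)).eval w ≤ (((d + 1).factorial : ℝ) + 1) * w ^ d := by
        nlinarith
      calc ξ * (derivative^[1] (Q d θ)).eval w
          ≤ ξ * ((((d + 1).factorial : ℝ) + 1) * w ^ d) := mul_le_mul_of_nonneg_left h1 hξ0.le
        _ ≤ ξ * ((((d + 1).factorial : ℝ) + 1) * (c ^ (d + 1) * (X : ℝ) ^ d)) := by
            apply mul_le_mul_of_nonneg_left _ hξ0.le
            exact mul_le_mul_of_nonneg_left hwm2 (by positivity)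
        _ = A * (ξ * (X : ℝ) ^ d) / 2 := by rw [hA]; ring
        _ ≤ A * (1 / A) / 2 := by
            have := mul_le_mul_of_nonneg_left hξ (by positivity : (0 : ℝ) ≤ A)
            linarith
        _ = 1 / 2 := by field_simp
  have h2 : ∀ n, n + 2 < 3 * 5 ^ i * X → F.eval ((n + 1 : ℕ) : ℝ) - F.eval (n : ℝ) ≤
      F.eval ((n + 2 : ℕ) : ℝ) - F.eval ((n + 1 : ℕ) : ℝ) := by
    intro n hn
    obtain ⟨z, hz1, hz2, hz3⟩ := dd_mvt 2 F n
    have hn' : (n : ℝ) + ((2 : ℕ) : ℝ) < 3 * 5 ^ i * X := by exact_mod_cast hn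
    obtain ⟨ha1, ha2⟩ := harg z ((Nat.cast_nonneg n).trans hz1) (hz2.trans hn'.le)
    set w := z + ((5 ^ i * X + 1 : ℕ) : ℝ) with hw
    have hb := hiter θ hθ 2 (by omega) w (hXx₀.trans ha1)
    have hw0 : 0 < w := by linarith
    have hf1 : (1 : ℝ) ≤ ((d + 1).descFactorial 2 : ℝ) := by
      have : 1 ≤ (d + 1).descFactorial 2 := by
        rw [Nat.one_le_iff_ne_zero]
        intro h0
        rw [Nat.descFactorial_eq_zero_iff_lt] at h0
        omega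
      exact_mod_cast this
    rw [abs_le] at hb
    have hwm0 : 0 < w ^ (d + 1 - 2) := by positivity
    have h3 : 0 ≤ ξ * (derivative^[2] (Q d θ)).eval w := by
      apply mul_nonneg hξ0.le
      nlinarith [hb.1]
    rw [hw, ← hFd 2 z, ← hz3] at h3
    have e1 : dd 2 (fun m => F.eval (m : ℝ)) n = (F.eval ((n + 2 : ℕ) : ℝ) - F.eval ((n + 1 : ℕ) : ℝ)) -
        (F.eval ((n + 1 : ℕ) : ℝ) - F.eval (n : ℝ)) := rfl
    rw [e1] at h3
    linarith
  have hθ0 : 0 < ξ * (X : ℝ) ^ d / 2 := by positivity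
  have hAinv : 1 / A ≤ 1 := by
    rw [div_le_one (by positivity)]
    exact hA1
  have := kusmin_landau (3 * 5 ^ i * X) (fun n => F.eval (n : ℝ)) (ξ * (X : ℝ) ^ d / 2) hθ0
    (by linarith) h1 h2
  calc ‖_‖ * (ξ * (X : ℝ) ^ d) ≤ 2 / (ξ * (X : ℝ) ^ d / 2) * (ξ * (X : ℝ) ^ d) :=
        mul_le_mul_of_nonneg_right this (by positivity)
    _ = 4 := by
        field_simp
        norm_num

end Pool.Agent.L7h14.MW
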