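import Pool.Agent.L7h43.MW.Stm
import Pool.Agent.Helper153.FacC

/-! Project MW, part S_W (van der Corput bounds for all small frequencies). -/

set_option autoImplicit false

namespace Pool.Agent.L7h14.MW

open Finset Polynomial Pool.Agent.L7h43.MW
open Pool.Agent.Helper153.Vdc (dd Cond vdc)

/-- the polynomial -/
noncomputable def Q (d : ℕ) (θ : Fin d → ℝ) : ℝ[X] :=
  X ^ (d + 1) + ∑ j : Fin d, C (θ j) * X ^ (j.val + 1)

theorem Q_eval (d : ℕ) (θ : Fin d → ℝ) (x : ℝ) : (Q d θ).eval x = P d θ x := by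
  simp [Q, P, eval_finsetSum]

theorem comp_iter (j : ℕ) (a : ℝ) : ∀ F : ℝ[X],
    derivative^[j] (F.comp (X + C a)) = (derivative^[j] F).comp (X + C a) := by
  induction j with
  | zero => intro F; rfl
  | succ j ih =>
    intro F
    rw [Function.iterate_succ_apply, Function.iterate_succ_apply, derivative_comp]
    simp only [derivative_add, derivative_X, derivative_C, add_zero, one_mul]
    exact ih _

/-- mean value theorem for iterated differences of a polynomial -/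
theorem dd_mvt (j : ℕ) : ∀ (F : ℝ[X]) (n : ℕ), ∃ z : ℝ, (n : ℝ) ≤ z ∧ z ≤ n + j ∧
    dd j (fun m => F.eval (m : ℝ)) n = (derivative^[j] F).eval z := by
  induction j with
  | zero =>
    intro F n
    exact ⟨n, le_rfl, by simp, rfl⟩
  | succ j ih =>
    intro F n
    obtain ⟨z, h1, h2, h3⟩ := ih (F.comp (X + C 1) - F) n
    have e1 : dd (j + 1) (fun m => F.eval (m : ℝ)) n =
        dd j (fun m : ℕ => (F.comp (X + C 1) - F).eval (m : ℝ)) n := by
      show dd j (fun m : ℕ => F.eval ((m + 1 : ℕ) : ℝ) - F.eval (m : ℝ)) n = _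
      congr 1
      funext m
      simp
    rw [e1, h3, iterate_derivative_sub, comp_iter]
    set G := derivative^[j] F with hG
    obtain ⟨c, hc, hc'⟩ := exists_hasDerivAt_eq_slope (fun x => G.eval x)
      (fun x => (derivative G).eval x) (show z < z + 1 by linarith)
      (G.continuous.continuousOn) (fun x _ => G.hasDerivAt x)
    refine ⟨c, by linarith [hc.1], ?_, ?_⟩
    · push_cast
      linarith [hc.2]
    · rw [Function.iterate_succ_apply', ← hG, hc']
      simp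

theorem iter_Q (d j : ℕ) (θ : Fin d → ℝ) (x : ℝ) :
    (derivative^[j] (Q d θ)).eval x = ((d + 1).descFactorial j : ℝ) * x ^ (d + 1 - j) +
      ∑ l : Fin d, θ l * (((l.val + 1).descFactorial j : ℝ) * x ^ (l.val + 1 - j)) := by
  unfold Q
  rw [iterate_map_add, iterate_derivative_sum, iterate_derivative_X_pow_eq_natCast_mul]
  simp only [iterate_derivative_C_mul, iterate_derivative_X_pow_eq_natCast_mul]
  simp [eval_finsetSum]

/-- derivatives of `P` -/
theorem iter_bd (d B : ℕ) : ∃ x₀ : ℝ, 1 ≤ x₀ ∧ ∀ θ ∈ Box d B, ∀ j ≤ d + 1, ∀ x : ℝ, x₀ ≤ x →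
    |(derivative^[j] (Q d θ)).eval x - ((d + 1).descFactorial j : ℝ) * x ^ (d + 1 - j)| ≤
      1 / 2 * x ^ (d + 1 - j) := by
  set K : ℝ := ∑ l : Fin d, (B : ℝ) * ((l.val + 1).factorial : ℝ) with hK
  have hK0 : 0 ≤ K := by positivity
  refine ⟨1 + 2 * K, by linarith, fun θ hθ j hj x hx => ?_⟩
  have hx1 : 1 ≤ x := by linarith
  have hx0 : 0 < x := by linarith
  rw [iter_Q, add_sub_cancel_left]
  refine (Finset.abs_sum_le_sum_abs _ _).trans ?_
  have h1 : ∀ l : Fin d, |θ l * (((l.val + 1).descFactorial j : ℝ) * x ^ (l.val + 1 - j))| ≤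
      (B : ℝ) * ((l.val + 1).factorial : ℝ) * (x ^ (d + 1 - j) / x) := by
    intro l
    rw [abs_mul, abs_of_nonneg (a := ((l.val + 1).descFactorial j : ℝ) * x ^ (l.val + 1 - j))
      (by positivity), mul_assoc]
    apply mul_le_mul (hθ l) _ (by positivity) (by positivity)
    rcases Nat.lt_or_ge (l.val + 1) j with h | h
    · rw [Nat.descFactorial_eq_zero_iff_lt.2 h]
      simp only [Nat.cast_zero, zero_mul]
      positivity
    · have hd : ((l.val + 1).descFactorial j : ℝ) ≤ ((l.val + 1).factorial : ℝ) := by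
        have h2 := Nat.factorial_mul_descFactorial h
        have h3 : 1 ≤ (l.val + 1 - j).factorial := Nat.factorial_pos _
        have h4 : (l.val + 1).descFactorial j ≤ (l.val + 1).factorial := by
          rw [← h2]
          exact Nat.le_mul_of_pos_left _ h3
        exact_mod_cast h4
      apply mul_le_mul hd _ (by positivity) (by positivity)
      have hl := l.isLt
      rw [le_div_iff₀ hx0, ← pow_succ]
      exact pow_le_pow_right₀ hx1 (by omega)
  refine (Finset.sum_le_sum fun l _ => h1 l).trans ?_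
  rw [← Finset.sum_mul, ← hK]
  have h2 : 0 < x ^ (d + 1 - j) := by positivity
  rw [mul_div_assoc', div_le_iff₀ hx0]
  nlinarith

/-- beyond the degree -/
theorem iter_zero (d : ℕ) (θ : Fin d → ℝ) (x : ℝ) :
    (derivative^[d + 2] (Q d θ)).eval x = 0 := by
  rw [iter_Q]
  have h1 : (d + 1).descFactorial (d + 2) = 0 := Nat.descFactorial_eq_zero_iff_lt.2 (by omega)
  rw [h1]
  have h2 : ∀ l : Fin d, (l.val + 1).descFactorial (d + 2) = 0 := fun l =>
    Nat.descFactorial_eq_zero_iff_lt.2 (by omega)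
  simp [h2]

/-- the sum as a sum over an initial segment -/
theorem f_eq (d X i : ℕ) (θ : Fin d → ℝ) (ξ : ℝ) : f d X i θ ξ =
    ∑ n ∈ range (3 * 5 ^ i * X), Pool.Agent.Helper153.Vdc.ee
      ((C ξ * (Q d θ).comp (Polynomial.X + C ((5 ^ i * X + 1 : ℕ) : ℝ))).eval (n : ℝ)) := by
  unfold f I
  have h1 : Ioc (5 ^ i * X) (4 * 5 ^ i * X) = Ico (5 ^ i * X + 1) (4 * 5 ^ i * X + 1) := by
    ext a; simp only [Finset.mem_Ioc, Finset.mem_Ico]; omega
  rw [h1, Finset.sum_Ico_eq_sum_range]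
  have h2 : 4 * 5 ^ i * X + 1 - (5 ^ i * X + 1) = 3 * 5 ^ i * X := by
    have : 4 * 5 ^ i * X = 3 * 5 ^ i * X + 5 ^ i * X := by ring
    omega
  rw [h2]
  refine Finset.sum_congr rfl fun n _ => ?_
  rw [eval_mul, eval_C, eval_comp, Q_eval]
  simp only [eval_add, eval_X, eval_C]
  show Complex.exp _ = Complex.exp _
  congr 6
  push_cast
  ring

/-- discrete intermediate value argument -/
theorem find_idx (b : ℕ → ℝ) (L U : ℝ) (h0 : b 0 ≤ U) (h : ∀ m, U < b (m + 1) → L ≤ b m) :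
    ∀ K, L ≤ b K → ∃ m ≤ K, L ≤ b m ∧ b m ≤ U := by
  intro K
  induction K with
  | zero => intro hK; exact ⟨0, le_rfl, hK, h0⟩
  | succ K ih =>
    intro hK
    by_cases h1 : b (K + 1) ≤ U
    · exact ⟨K + 1, le_rfl, hK, h1⟩
    · obtain ⟨m, h2, h3⟩ := ih (h K (not_le.1 h1))
      exact ⟨m, by omega, h3⟩

/-- uniform van der Corput -/
theorem vdc_unif (A : ℝ) (hA : 1 ≤ A) (η : ℝ) (hη : 0 < η) (hη1 : η < 1) (K : ℕ) :
    ∃ σ : ℝ, 0 < σ ∧ ∃ C : ℝ, 1 ≤ C ∧ ∀ k, 2 ≤ k → k ≤ K → ∀ (N M : ℕ) (g : ℕ → ℝ) (lam : ℝ),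
      1 ≤ N → M ≤ N → Cond k g M lam A → (N : ℝ) ^ (-2 + η) ≤ lam → lam ≤ (N : ℝ) ^ (-η) →
      ‖∑ n ∈ range M, Pool.Agent.Helper153.Vdc.ee (g n)‖ ≤ C * (N : ℝ) ^ (1 - σ) := by
  induction K with
  | zero =>
    exact ⟨1, one_pos, 1, le_rfl, fun k h1 h2 => by omega⟩
  | succ K ih =>
    obtain ⟨σ, hσ, C, hC, H⟩ := ih
    by_cases hK : 2 ≤ K + 1
    · obtain ⟨σ', hσ', C', hC', H'⟩ := vdc (K + 1) hK A hA η hη hη1
      refine ⟨min σ σ', lt_min hσ hσ', max C C', hC.trans (le_max_left _ _), ?_⟩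
      intro k hk hk2 N M g lam hN hMN hc h1 h2
      have hN1 : (1 : ℝ) ≤ N := by exact_mod_cast hN
      rcases Nat.lt_or_ge K k with h | h
      · have hkk : k = K + 1 := by omega
        subst hkk
        refine (H' N M g lam hN hMN hc h1 h2).trans ?_
        apply mul_le_mul (le_max_right _ _) _ (by positivity) (by positivity)
        exact Real.rpow_le_rpow_of_exponent_le hN1 (by linarith [min_le_right σ σ'])
      · refine (H k hk h N M g lam hN hMN hc h1 h2).trans ?_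
        apply mul_le_mul (le_max_left _ _) _ (by positivity) (by positivity)
        exact Real.rpow_le_rpow_of_exponent_le hN1 (by linarith [min_le_left σ σ'])
    · exact ⟨σ, hσ, C, hC, fun k h1 h2 => by omega⟩

theorem s_W : S_W := by
  intro d B hd η hη hη1
  obtain ⟨x₀, hx₀, hiter⟩ := iter_bd d B
  set η₁ : ℝ := η / 2 with hη₁
  set η₂ : ℝ := η / 4 with hη₂
  set c : ℝ := 5 ^ (d + 2) with hc
  have hc1 : 1 ≤ c := one_le_pow₀ (by norm_num)
  set A : ℝ := 2 * (((d + 1).factorial : ℝ) + 1) * c ^ (d + 1) with hA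
  have hA1 : 1 ≤ A := by
    have h1 : (1 : ℝ) ≤ c ^ (d + 1) := one_le_pow₀ hc1
    have h2 : (0 : ℝ) ≤ ((d + 1).factorial : ℝ) := by positivity
    rw [hA]
    nlinarith
  obtain ⟨σ, hσ, C₀, hC₀, H⟩ := vdc_unif A hA1 η₂ (by positivity) (by linarith) (d + 1)
  have htend : Filter.Tendsto (fun X : ℕ => (X : ℝ) ^ (η / 4)) Filter.atTop Filter.atTop :=
    (tendsto_rpow_atTop (by positivity)).comp tendsto_natCast_atTop_atTop
  obtain ⟨X₁, hX₁⟩ := Filter.eventually_atTop.1 (htend.eventually_ge_atTop (2 * c))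
  refine ⟨σ, C₀ * c ^ (1 - σ), hσ, by positivity, max (max X₁ 1) ⌈x₀⌉₊, ?_⟩
  intro X hX θ hθ ξ hξ1 hξ2 i hi
  have hXX₁ : X₁ ≤ X := (le_max_left _ _).trans ((le_max_left _ _).trans hX)
  have hX1' : 1 ≤ X := (le_max_right _ _).trans ((le_max_left _ _).trans hX)
  have hXx₀ : x₀ ≤ X := (Nat.le_ceil x₀).trans (by exact_mod_cast (le_max_right _ _).trans hX)
  have hX1 : (1 : ℝ) ≤ X := by exact_mod_cast hX1'
  have hX0 : (0 : ℝ) < X := by linarith
  have hbig : 2 * c ≤ (X : ℝ) ^ (η / 4) := hX₁ X hXX₁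
  have hξ0 : 0 < ξ := lt_of_lt_of_le (Real.rpow_pos_of_pos hX0 _) hξ1
  -- the right order of the difference
  obtain ⟨m, hm, hL, hU⟩ := find_idx (fun m => ξ * (X : ℝ) ^ m) ((X : ℝ) ^ (-2 + η₁))
    ((X : ℝ) ^ (-η₁)) (by
      simp only [pow_zero, mul_one]
      exact hξ2.trans (Real.rpow_le_rpow_of_exponent_le hX1 (by rw [hη₁]; linarith)))
    (by
      intro m hm
      rw [pow_succ, ← mul_assoc, ← div_lt_iff₀ hX0] at hm
      refine le_trans ?_ hm.le
      rw [le_div_iff₀ hX0]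
      calc (X : ℝ) ^ (-2 + η₁) * X = (X : ℝ) ^ (-2 + η₁ + 1) := by
            rw [Real.rpow_add hX0 (-2 + η₁) 1, Real.rpow_one]
        _ ≤ (X : ℝ) ^ (-η₁) := Real.rpow_le_rpow_of_exponent_le hX1 (by rw [hη₁]; linarith))
    (d - 1) (by
      have h1 : (X : ℝ) ^ (-2 + η₁) ≤ (X : ℝ) ^ (-((d : ℝ) + 1) + η) * (X : ℝ) ^ (d - 1) := by
        rw [← Real.rpow_natCast (X : ℝ) (d - 1), ← Real.rpow_add hX0]
        apply Real.rpow_le_rpow_of_exponent_le hX1
        rw [Nat.cast_sub hd, hη₁]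
        push_cast
        linarith
      exact h1.trans (mul_le_mul_of_nonneg_right hξ1 (by positivity)))
  set k : ℕ := d + 1 - m with hk
  have hk2 : 2 ≤ k := by omega
  have hkd : k ≤ d + 1 := by omega
  have hmk : d + 1 - k = m := by omega
  rw [f_eq]
  set F : ℝ[X] := C ξ * (Q d θ).comp (Polynomial.X + C ((5 ^ i * X + 1 : ℕ) : ℝ)) with hF
  have hFd : ∀ j : ℕ, ∀ z : ℝ, (derivative^[j] F).eval z =
      ξ * (derivative^[j] (Q d θ)).eval (z + ((5 ^ i * X + 1 : ℕ) : ℝ)) := by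
    intro j z
    rw [hF, iterate_derivative_C_mul, comp_iter, eval_mul, eval_C, eval_comp]
    simp
  have h5i : (1 : ℝ) ≤ 5 ^ i := one_le_pow₀ (by norm_num)
  have h5id : (5 : ℝ) ^ i ≤ 5 ^ (d + 1) := pow_le_pow_right₀ (by norm_num) hi
  -- the range of the arguments
  have harg : ∀ z : ℝ, 0 ≤ z → z ≤ 3 * 5 ^ i * X →
      (X : ℝ) ≤ z + ((5 ^ i * X + 1 : ℕ) : ℝ) ∧ z + ((5 ^ i * X + 1 : ℕ) : ℝ) ≤ c * X := by
    intro z hz1 hz2
    push_cast
    constructor
    · nlinarith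
    · have h3 : 4 * 5 ^ i * (X : ℝ) ≤ 4 * 5 ^ (d + 1) * X := by
        apply mul_le_mul_of_nonneg_right _ hX0.le
        linarith
      have h4 : c * (X : ℝ) = 5 * 5 ^ (d + 1) * X := by rw [hc]; ring
      have h5 : (1 : ℝ) ≤ 5 ^ (d + 1) * X := by
        have : (1 : ℝ) ≤ 5 ^ (d + 1) := one_le_pow₀ (by norm_num)
        nlinarith
      rw [h4]
      nlinarith
  have hcond : Cond k (fun n => F.eval (n : ℝ)) (3 * 5 ^ i * X) (ξ * (X : ℝ) ^ m / 2) A := by
    constructor
    · intro n hn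
      obtain ⟨z, hz1, hz2, hz3⟩ := dd_mvt k F n
      have hn' : (n : ℝ) + k < 3 * 5 ^ i * X := by exact_mod_cast hn
      obtain ⟨ha1, ha2⟩ := harg z ((Nat.cast_nonneg n).trans hz1) (hz2.trans hn'.le)
      set w := z + ((5 ^ i * X + 1 : ℕ) : ℝ) with hw
      have hb := hiter θ hθ k hkd w (hXx₀.trans ha1)
      rw [hmk] at hb
      have hw0 : 0 < w := by linarith
      have hf1 : (1 : ℝ) ≤ ((d + 1).descFactorial k : ℝ) := by
        have : 1 ≤ (d + 1).descFactorial k := by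
          rw [Nat.one_le_iff_ne_zero]
          intro h0
          rw [Nat.descFactorial_eq_zero_iff_lt] at h0
          omega
        exact_mod_cast this
      have hf2 : ((d + 1).descFactorial k : ℝ) ≤ ((d + 1).factorial : ℝ) := by
        have h2 := Nat.factorial_mul_descFactorial hkd
        have h3 : 1 ≤ (d + 1 - k).factorial := Nat.factorial_pos _
        have h4 : (d + 1).descFactorial k ≤ (d + 1).factorial := by
          rw [← h2]
          exact Nat.le_mul_of_pos_left _ h3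
        exact_mod_cast h4
      rw [abs_le] at hb
      obtain ⟨hb1, hb2⟩ := hb
      have hwm : (X : ℝ) ^ m ≤ w ^ m := pow_le_pow_left₀ hX0.le ha1 m
      have hwm0 : 0 < w ^ m := by positivity
      have hwm2 : w ^ m ≤ c ^ (d + 1) * (X : ℝ) ^ m := by
        calc w ^ m ≤ (c * X) ^ m := pow_le_pow_left₀ hw0.le ha2 m
          _ = c ^ m * (X : ℝ) ^ m := by rw [mul_pow]
          _ ≤ c ^ (d + 1) * (X : ℝ) ^ m := by
              apply mul_le_mul_of_nonneg_right _ (by positivity)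
              exact pow_le_pow_right₀ hc1 (by omega)
      rw [hz3, hFd]
      constructor
      · have h1 : (X : ℝ) ^ m / 2 ≤ (derivative^[k] (Q d θ)).eval w := by nlinarith
        calc ξ * (X : ℝ) ^ m / 2 = ξ * ((X : ℝ) ^ m / 2) := by ring
          _ ≤ _ := mul_le_mul_of_nonneg_left h1 hξ0.le
      · have h1 : (derivative^[k] (Q d θ)).eval w ≤ (((d + 1).factorial : ℝ) + 1) * w ^ m := by
          nlinarith
        calc ξ * (derivative^[k] (Q d θ)).eval w
            ≤ ξ * ((((d + 1).factorial : ℝ) + 1) * w ^ m) := mul_le_mul_of_nonneg_left h1 hξ0.le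
          _ ≤ ξ * ((((d + 1).factorial : ℝ) + 1) * (c ^ (d + 1) * (X : ℝ) ^ m)) := by
              apply mul_le_mul_of_nonneg_left _ hξ0.le
              exact mul_le_mul_of_nonneg_left hwm2 (by positivity)
          _ = A * (ξ * (X : ℝ) ^ m / 2) := by rw [hA]; ring
    · intro n hn
      obtain ⟨z, hz1, hz2, hz3⟩ := dd_mvt (k + 1) F n
      have hn' : (n : ℝ) + ((k + 1 : ℕ) : ℝ) < 3 * 5 ^ i * X := by exact_mod_cast hn
      obtain ⟨ha1, ha2⟩ := harg z ((Nat.cast_nonneg n).trans hz1) (hz2.trans hn'.le)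
      rw [hz3, hFd]
      apply mul_nonneg hξ0.le
      rcases Nat.lt_or_ge k (d + 1) with h | h
      · set w := z + ((5 ^ i * X + 1 : ℕ) : ℝ) with hw
        have hb := hiter θ hθ (k + 1) (by omega) w (hXx₀.trans ha1)
        have hw0 : 0 < w := by linarith
        have hf1 : (1 : ℝ) ≤ ((d + 1).descFactorial (k + 1) : ℝ) := by
          have : 1 ≤ (d + 1).descFactorial (k + 1) := by
            rw [Nat.one_le_iff_ne_zero]
            intro h0
            rw [Nat.descFactorial_eq_zero_iff_lt] at h0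
            omega
          exact_mod_cast this
        rw [abs_le] at hb
        have hwm0 : 0 < w ^ (d + 1 - (k + 1)) := by positivity
        nlinarith [hb.1]
      · have hkk : k = d + 1 := by omega
        rw [hkk, iter_zero]
  have hN : ((5 ^ (d + 2) * X : ℕ) : ℝ) = c * X := by rw [hc]; push_cast; ring
  have hη₂0 : 0 < η₂ := by positivity
  have hmain := H k hk2 hkd (5 ^ (d + 2) * X) (3 * 5 ^ i * X) (fun n => F.eval (n : ℝ))
    (ξ * (X : ℝ) ^ m / 2) (by
      have : 1 ≤ 5 ^ (d + 2) := Nat.one_le_pow _ _ (by norm_num)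
      nlinarith) (by
      apply Nat.mul_le_mul_right
      calc 3 * 5 ^ i ≤ 5 * 5 ^ (d + 1) := by
            apply Nat.mul_le_mul (by norm_num)
            exact Nat.pow_le_pow_right (by norm_num) hi
        _ = 5 ^ (d + 2) := by ring) hcond (by
      rw [hN, Real.mul_rpow (by positivity) (by positivity)]
      have h1 : c ^ (-2 + η₂) ≤ 1 := Real.rpow_le_one_of_one_le_of_nonpos hc1 (by rw [hη₂]; linarith)
      have h2 : (X : ℝ) ^ (-2 + η₁) = (X : ℝ) ^ (-2 + η₂) * (X : ℝ) ^ (η / 4) := by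
        rw [← Real.rpow_add hX0]
        congr 1
        rw [hη₁, hη₂]; ring
      have h3 : 0 < (X : ℝ) ^ (-2 + η₂) := Real.rpow_pos_of_pos hX0 _
      rw [h2] at hL
      have h4 : c ^ (-2 + η₂) * (X : ℝ) ^ (-2 + η₂) ≤ (X : ℝ) ^ (-2 + η₂) := by nlinarith
      refine h4.trans ?_
      nlinarith) (by
      rw [hN, Real.mul_rpow (by positivity) (by positivity)]
      have h1 : c ^ (-1 : ℝ) ≤ c ^ (-η₂) := Real.rpow_le_rpow_of_exponent_le hc1 (by rw [hη₂]; linarith)
      have h2 : (X : ℝ) ^ (-η₂) = (X : ℝ) ^ (-η₁) * (X : ℝ) ^ (η / 4) := by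
        rw [← Real.rpow_add hX0]
        congr 1
        rw [hη₁, hη₂]; ring
      have h3 : 0 < (X : ℝ) ^ (-η₁) := Real.rpow_pos_of_pos hX0 _
      rw [h2]
      have h5 : 1 ≤ c ^ (-η₂) * (X : ℝ) ^ (η / 4) := by
        have h6 : c ^ (-1 : ℝ) * (2 * c) = 2 := by
          rw [Real.rpow_neg_one]
          field_simp
        have h7 : c ^ (-1 : ℝ) * (2 * c) ≤ c ^ (-η₂) * (X : ℝ) ^ (η / 4) :=
          mul_le_mul h1 hbig (by positivity) (by positivity)
        linarith
      have h8 : (X : ℝ) ^ (-η₁) * 1 ≤ (X : ℝ) ^ (-η₁) * (c ^ (-η₂) * (X : ℝ) ^ (η / 4)) :=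
        mul_le_mul_of_nonneg_left h5 h3.le
      have h9 : ξ * (X : ℝ) ^ m / 2 ≤ (X : ℝ) ^ (-η₁) := by
        have : 0 ≤ ξ * (X : ℝ) ^ m := by positivity
        linarith
      calc ξ * (X : ℝ) ^ m / 2 ≤ (X : ℝ) ^ (-η₁) * 1 := by rw [mul_one]; exact h9
        _ ≤ _ := h8
        _ = _ := by ring)
  refine hmain.trans_eq ?_
  rw [hN, Real.mul_rpow (by positivity) (by positivity)]
  ring

end Pool.Agent.L7h14.MW
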